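import Pool.Agent.Work.MP_440970_an.BH.All

/-!
# MP_440970_an: `𝒳^p(ℂ) ≠ L^p(ℂ)` for all `p₁ ≤ p < 1/2`, with some `p₁ < 1/2`

`𝒳(ℂ)` is the complex linear span of the kernels `(z-a)/|z-a|^3`, and `𝒳^p(ℂ)` is the closure of
`𝒳(ℂ) ∩ L^p(ℂ)` for the metric `∫ |f-g|^p`.
-/

open MeasureTheory
open scoped ENNReal

namespace Pool.Agent.Results.MP_440970_an.BelowOneHalf

/-- `𝒳(ℂ)`: the complex linear span of the functions `z ↦ (z-a)/|z-a|^3`, `a ∈ ℂ` (the value at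
`z = a` is irrelevant; it is `0`). -/
noncomputable def spanX : Submodule ℂ (ℂ → ℂ) :=
  Submodule.span ℂ (Set.range fun a : ℂ => fun z : ℂ => (z - a) / (‖z - a‖ : ℂ) ^ 3)

/-- `g ∈ 𝒳^p(ℂ)`: `g` belongs to the closure of `𝒳(ℂ) ∩ L^p(ℂ)` for the metric
`d(f,g) = ∫ |f-g|^p`. -/
def InClosure (p : ℝ) (g : ℂ → ℂ) : Prop :=
  ∀ ε : ℝ, 0 < ε → ∃ f ∈ spanX, MemLp f (ENNReal.ofReal p) volume ∧
    ∫⁻ z, ‖g z - f z‖ₑ ^ p < ENNReal.ofReal ε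

/-- There is `p₁ < 1/2` such that `𝒳^p(ℂ) ≠ L^p(ℂ)` for all `p` with `p₁ ≤ p < 1/2`. -/
theorem result : ∃ p₁ : ℝ, p₁ < 1 / 2 ∧ ∀ p : ℝ, p₁ ≤ p → p < 1 / 2 →
    ∃ g : ℂ → ℂ, MemLp g (ENNReal.ofReal p) volume ∧ ¬ InClosure p g := by
  obtain ⟨p₁, h0, h1, h⟩ := Pool.Agent.Work.MP_440970_an.BH.all_Final
  refine ⟨p₁, h1, fun p hp hp' => ?_⟩
  obtain ⟨g, hg, hn, hd⟩ := h p hp hp'
  have hp0 : 0 < p := h0.trans_le hp
  have hmem : ∀ f : ℂ → ℂ, AEStronglyMeasurable f volume →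
      (MemLp f (ENNReal.ofReal p) volume ↔ Pool.Agent.Work.MP_440970_an.np p f < ⊤) := by
    intro f hf
    have e1 : ENNReal.ofReal p ≠ 0 := by
      rw [Ne, ENNReal.ofReal_eq_zero, not_le]
      exact hp0
    rw [MemLp, eLpNorm_lt_top_iff_lintegral_rpow_enorm_lt_top e1 ENNReal.ofReal_ne_top,
      ENNReal.toReal_ofReal hp0.le]
    exact ⟨fun h => h.2, fun h => ⟨hf, h⟩⟩
  refine ⟨g, (hmem g hg.aestronglyMeasurable).2 hn, fun hc => ?_⟩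
  obtain ⟨ε, hε, hε'⟩ : ∃ ε : ℝ, 0 < ε ∧
      ENNReal.ofReal ε ≤ Pool.Agent.Work.MP_440970_an.dX p g := by
    rcases eq_or_ne (Pool.Agent.Work.MP_440970_an.dX p g) ⊤ with ht | ht
    · exact ⟨1, one_pos, by rw [ht]; exact le_top⟩
    · exact ⟨(Pool.Agent.Work.MP_440970_an.dX p g).toReal, ENNReal.toReal_pos hd.ne' ht, by
        rw [ENNReal.ofReal_toReal ht]⟩
  obtain ⟨f, hf, hfp, hlt⟩ := hc ε hε
  have h3 : Pool.Agent.Work.MP_440970_an.dX p g ≤ ∫⁻ z, ‖g z - f z‖ₑ ^ p := by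
    refine iInf_le_of_le f (iInf_le_of_le hf (iInf_le_of_le ?_ le_rfl))
    exact (hmem f hfp.1).1 hfp
  exact absurd (hε'.trans h3) (not_le.2 hlt)

end Pool.Agent.Results.MP_440970_an.BelowOneHalf
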