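import Pool.Agent.Work.MP_440970_an.FC.All
import Pool.Agent.Work.MP_440970_an.CX.AllX
import Pool.Agent.Work.MP_440970_an.FX.Main

/-!
# MP_440970_an: the answer to Q1 is negative
-/

open MeasureTheory Set Filter Topology
open scoped ContDiff ENNReal

namespace Pool.Agent.Results.MP_440970_an.NegativeAnswer

/-- partial derivatives on `ℝ³`; the coordinates are `(t, x₁, x₂)` -/
noncomputable def pd (i : Fin 3) (u : (Fin 3 → ℝ) → ℝ) (x : Fin 3 → ℝ) : ℝ :=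
  fderiv ℝ u x (Pi.single i 1)

/-- the point `(t, x)` -/
noncomputable def pt (t : ℝ) (x : ℂ) : Fin 3 → ℝ := ![t, x.re, x.im]

/-- the half-space `ℝ³₊` -/
def half : Set (Fin 3 → ℝ) := {x | 0 < x 0}

/-- the non-tangential maximal function `Mu` -/
noncomputable def NMax (u : (Fin 3 → ℝ) → ℝ) (x : ℂ) : ℝ≥0∞ :=
  ⨆ (t : ℝ) (y : ℂ) (_ : 0 < t) (_ : ‖y - x‖ < t), ‖u (pt t y)‖ₑ

/-- `u ∈ H^p(ℝ²)`: `u` is a real harmonic function on `ℝ³₊` with `Mu ∈ L^p(ℝ²)` -/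
structure IsHp (p : ℝ) (u : (Fin 3 → ℝ) → ℝ) : Prop where
  smooth : ContDiffOn ℝ ∞ u half
  harmonic : ∀ x ∈ half, ∑ i, pd i (pd i u) x = 0
  maximal : ∫⁻ x, NMax u x ^ p < ⊤

/-- generalized Cauchy-Riemann equations -/
structure SteinWeiss (u : Fin 3 → (Fin 3 → ℝ) → ℝ) : Prop where
  curl : ∀ x ∈ half, ∀ i j, pd i (u j) x = pd j (u i) x
  div : ∀ x ∈ half, ∑ i, pd i (u i) x = 0

/-- `f = Tu₀` for some `u₀ ∈ H^p`: `f` is the triple of the boundary values of `u₀` and of its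
Riesz transforms `u₁, u₂` -/
def InRange (p : ℝ) (f : Fin 3 → ℂ → ℝ) : Prop :=
  ∃ u : Fin 3 → (Fin 3 → ℝ) → ℝ, (∀ j, IsHp p (u j)) ∧ SteinWeiss u ∧
    ∀ᵐ x : ℂ, ∀ j, Tendsto (fun t : ℝ => u j (pt t x)) (𝓝[>] 0) (𝓝 (f j x))

/-- `T` maps `H^p(ℝ²)` onto `(L^p(ℝ²))³` -/
def TOnto (p : ℝ) : Prop :=
  ∀ f : Fin 3 → ℂ → ℝ, (∀ j, MemLp (f j) (ENNReal.ofReal p) volume) → InRange p f

/-- `𝒳(ℂ)`: the complex linear span of the functions `z ↦ (z-a)/|z-a|^3`, `a ∈ ℂ` -/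
noncomputable def spanX : Submodule ℂ (ℂ → ℂ) :=
  Submodule.span ℂ (Set.range fun a : ℂ => fun z : ℂ => (z - a) / (‖z - a‖ : ℂ) ^ 3)

/-- `g ∈ 𝒳^p(ℂ)`: `g` belongs to the closure of `𝒳(ℂ) ∩ L^p(ℂ)` for the metric
`d(f,g) = ∫ |f-g|^p`. -/
def InClosure (p : ℝ) (g : ℂ → ℂ) : Prop :=
  ∀ ε : ℝ, 0 < ε → ∃ f ∈ spanX, MemLp f (ENNReal.ofReal p) volume ∧
    ∫⁻ z, ‖g z - f z‖ₑ ^ p < ENNReal.ofReal ε

/-- `T` is not onto for `p = 13/35`, but `𝒳^p(ℂ) = L^p(ℂ)` for all `0 < p ≤ 13/35`.  Hence for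
every number `p₂` such that `T` is onto if and only if `p < p₂` there is `p ≥ p₂` with
`𝒳^p(ℂ) = L^p(ℂ)`. -/
theorem result :
    ¬ TOnto (13 / 35) ∧
    (∀ p : ℝ, 0 < p → p ≤ 13 / 35 →
      ∀ g : ℂ → ℂ, MemLp g (ENNReal.ofReal p) volume → InClosure p g) ∧
    ∀ p₂ : ℝ, (∀ p : ℝ, 0 < p → (TOnto p ↔ p < p₂)) →
      ∃ p : ℝ, p₂ ≤ p ∧ 0 < p ∧ p < 1 / 2 ∧
        ∀ g : ℂ → ℂ, MemLp g (ENNReal.ofReal p) volume → InClosure p g := by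
  obtain ⟨M, Y, hc, hg⟩ := Pool.Agent.Work.MP_440970_an.FX.cert
  obtain ⟨h1, -⟩ := Pool.Agent.Work.MP_440970_an.FC.all_fc (13 / 35) M Y (by norm_num)
    (by norm_num) hc hg
  have hp0 : (0 : ℝ) < 13 / 35 := by norm_num
  have e1 : ENNReal.ofReal (13 / 35) ≠ 0 := by
    rw [Ne, ENNReal.ofReal_eq_zero, not_le]
    exact hp0
  have hd : ∀ p : ℝ, 0 < p → p ≤ 13 / 35 →
      ∀ g : ℂ → ℂ, MemLp g (ENNReal.ofReal p) volume → InClosure p g :=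
    fun p hp hp' g hg' ε' hε' =>
      Pool.Agent.Work.MP_440970_an.AllX_closure p hp hp' g hg' ε' hε'
  have hT : ¬ TOnto (13 / 35) := by
    intro hT
    refine h1 fun f hf hfp => ?_
    obtain ⟨u, hu, hs, hl⟩ := hT f fun j => ⟨(hf j).aestronglyMeasurable, by
      rw [eLpNorm_lt_top_iff_lintegral_rpow_enorm_lt_top e1 ENNReal.ofReal_ne_top,
        ENNReal.toReal_ofReal hp0.le]
      exact hfp j⟩
    exact ⟨u, fun i => ⟨(hu i).smooth, (hu i).harmonic, (hu i).maximal⟩,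
      ⟨isOpen_lt continuous_const (continuous_apply 0), fun i => (hu i).smooth, hs.curl, hs.div⟩,
      hl⟩
  refine ⟨hT, hd, fun p₂ hp₂ => ?_⟩
  have hle : p₂ ≤ 13 / 35 := by
    by_contra hlt
    exact hT ((hp₂ _ hp0).2 (not_le.1 hlt))
  exact ⟨13 / 35, hle, hp0, by norm_num, hd _ hp0 le_rfl⟩

end Pool.Agent.Results.MP_440970_an.NegativeAnswer
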